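import Mathlib

/-! Not every finite group has property (*): `S₅` fails it. -/

set_option autoImplicit false

namespace Pool.Agent.Results.MP_e3cc28_al.NotAll

open Equiv

/-- Property (*): for all Sylow 2-subgroups `P, Q` of `G` there is a Sylow 2-subgroup `S` of
`⟨P, Q⟩ = P ⊔ Q` that contains `P ∩ Q` as a normal subgroup. -/
def Star (G : Type) [Group G] : Prop :=
  ∀ P Q : Sylow 2 G, ∃ S : Sylow 2 ↥((P : Subgroup G) ⊔ (Q : Subgroup G)),
    (P : Subgroup G) ⊓ Q ≤ S.toSubgroup.map (Subgroup.subtype _) ∧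
      (((P : Subgroup G) ⊓ Q).subgroupOf (S.toSubgroup.map (Subgroup.subtype _))).Normal

theorem crit {G : Type} [Group G] [Finite G] (P Q : Sylow 2 G) (t : G) (ht : t ≠ 1)
    (htP : t ∈ (P : Subgroup G)) (htQ : t ∈ (Q : Subgroup G))
    (hPQ : ∀ g, g ∈ (P : Subgroup G) → g ∈ (Q : Subgroup G) → g = 1 ∨ g = t) (n : ℕ)
    (hn : 2 ^ n ∣ Nat.card (P : Subgroup G))
    (hc : ¬ 2 ^ n ∣ Nat.card (Subgroup.centralizer ({t} : Set G))) : ¬ Star G := by
  intro h
  obtain ⟨S, hle, hN⟩ := h P Q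
  apply hc
  have h1 : 2 ^ n ∣ Nat.card ↥((P : Subgroup G) ⊔ (Q : Subgroup G)) :=
    hn.trans (Subgroup.card_dvd_of_le le_sup_left)
  have h2 : 2 ^ n ∣ Nat.card S.toSubgroup := S.pow_dvd_card_of_pow_dvd_card h1
  rw [← Subgroup.card_map_of_injective (Subgroup.subtype_injective _)] at h2
  refine h2.trans (Subgroup.card_dvd_of_le ?_)
  intro s hs
  rw [Subgroup.mem_centralizer_iff]
  intro y hy
  rw [Set.mem_singleton_iff] at hy
  subst hy
  have h3 := hN.conj_mem ⟨y, hle ⟨htP, htQ⟩⟩ (by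
    rw [Subgroup.mem_subgroupOf]; exact ⟨htP, htQ⟩) ⟨s, hs⟩
  rw [Subgroup.mem_subgroupOf] at h3
  rcases hPQ _ h3.1 h3.2 with h4 | h4
  · exfalso
    apply ht
    have h5 : s * y * s⁻¹ = 1 := h4
    calc y = s⁻¹ * (s * y * s⁻¹) * s := by group
      _ = 1 := by rw [h5]; group
  · have h5 : s * y * s⁻¹ = y := h4
    calc y * s = s * y * s⁻¹ * s := by rw [h5]
      _ = s * y := by group

theorem card_cent {G : Type} [Group G] [Fintype G] [DecidableEq G] (m : G) :
    Nat.card (Subgroup.centralizer ({m} : Set G)) =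
      (Finset.univ.filter fun g : G => m * g = g * m).card := by
  rw [← Fintype.card_subtype, ← Nat.card_eq_fintype_card]
  exact Nat.card_congr (Equiv.subtypeEquivRight fun g => by
    simp [Subgroup.mem_centralizer_iff])

def m1 : Perm (Fin 5) := swap 0 1 * swap 2 3
def m2 : Perm (Fin 5) := swap 0 1 * swap 2 4

theorem fac : (Nat.card (Perm (Fin 5))).factorization 2 = 3 := by
  rw [Nat.card_perm, Nat.card_eq_fintype_card, Fintype.card_fin]
  show (2 ^ 3 * 15).factorization 2 = 3
  rw [Nat.factorization_mul (by norm_num) (by norm_num), Nat.prime_two.factorization_pow]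
  simp [Nat.factorization_eq_zero_of_not_dvd]

theorem c1 : Nat.card (Subgroup.centralizer ({m1} : Set (Perm (Fin 5)))) = 8 := by
  rw [card_cent]; decide +kernel
theorem c2 : Nat.card (Subgroup.centralizer ({m2} : Set (Perm (Fin 5)))) = 8 := by
  rw [card_cent]; decide +kernel
theorem c3 : Nat.card (Subgroup.centralizer ({swap 0 1} : Set (Perm (Fin 5)))) = 12 := by
  rw [card_cent]; decide +kernel
theorem c4 : ∀ g : Perm (Fin 5), m1 * g = g * m1 → m2 * g = g * m2 → g = 1 ∨ g = swap 0 1 := by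
  decide +kernel

/-- The symmetric group `S₅` does not have property (*). -/
theorem result : ¬ Star (Perm (Fin 5)) := by
  refine crit (Sylow.ofCard _ (c1.trans (by rw [fac]; rfl)))
    (Sylow.ofCard _ (c2.trans (by rw [fac]; rfl))) (swap 0 1) (by decide) ?_ ?_ ?_ 3 ?_ ?_
  · simp only [Sylow.coe_ofCard, Subgroup.mem_centralizer_iff, Set.mem_singleton_iff,
      forall_eq]; decide
  · simp only [Sylow.coe_ofCard, Subgroup.mem_centralizer_iff, Set.mem_singleton_iff,
      forall_eq]; decide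
  · simp only [Sylow.coe_ofCard, Subgroup.mem_centralizer_iff, Set.mem_singleton_iff,
      forall_eq]; exact c4
  · rw [Sylow.coe_ofCard, c1]; norm_num
  · rw [c3]; norm_num

end Pool.Agent.Results.MP_e3cc28_al.NotAll
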